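import Pool.Agent.H89.ZS.Rho

open Metric Set Filter Topology Complex
open scoped NNReal ContDiff

namespace Pool.Agent.H89.ZS

open MP8a09

noncomputable section

/-- Cauchy's estimate for a function which is Hölder continuous of order `1/p` -/
lemma deriv_holder {f : ℂ → ℂ} {G : Set ℂ} (hfd : ∀ z ∈ G, DifferentiableAt ℂ f z) {p : ℕ}
    (hp : 1 ≤ p) {L : ℝ} (hL0 : 0 ≤ L)
    (hLl : ∀ z ∈ G, ∀ w ∈ G, ‖f z - f w‖ ^ p ≤ L * ‖z - w‖) {x : ℂ} {r : ℝ} (hr : 0 < r)
    (hb : closedBall x r ⊆ G) : (‖deriv f x‖ * r) ^ p ≤ L * r := by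
  set X : ℝ := (L * r) ^ ((p : ℝ)⁻¹) with hX
  have hX0 : 0 ≤ X := by positivity
  have hXp : X ^ p = L * r := Real.rpow_inv_natCast_pow (by positivity) (by omega)
  have hx : x ∈ G := hb (mem_closedBall_self hr.le)
  have hdc : DiffContOnCl ℂ (fun v => f v - f x) (ball x r) := by
    refine DifferentiableOn.diffContOnCl ?_
    rw [closure_ball x hr.ne']
    intro v hv
    exact ((hfd v (hb hv)).sub_const _).differentiableWithinAt
  have hs : ∀ v ∈ sphere x r, ‖f v - f x‖ ≤ X := by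
    intro v hv
    have h1 := hLl v (hb (sphere_subset_closedBall hv)) x hx
    rw [mem_sphere, dist_eq_norm] at hv
    rw [hv, ← hXp] at h1
    exact le_of_pow_le_pow_left₀ (by omega) hX0 h1
  have h2 := Complex.norm_deriv_le_of_forall_mem_sphere_norm_le hr hdc hs
  have h3 : deriv (fun v => f v - f x) x = deriv f x := by
    rw [deriv_sub_const]
  rw [h3, le_div_iff₀ hr] at h2
  rw [← hXp]
  exact pow_le_pow_left₀ (by positivity) h2 p

set_option maxHeartbeats 2000000 in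
theorem exists_g_pow {G : Set ℂ} (hG : IsLipschitzDomain G) {f : ℂ → ℂ} {p : ℕ} (hp : 1 ≤ p)
    (hfd : DifferentiableOn ℂ f G) (hfc : ContinuousOn f (closure G)) {L : ℝ} (hL1 : 1 ≤ L)
    (hLb : ∀ z ∈ closure G, ‖f z‖ ^ p ≤ L)
    (hLl : ∀ z ∈ closure G, ∀ w ∈ closure G, ‖f z - f w‖ ^ p ≤ L * ‖z - w‖) :
    ∃ (ρ : ℂ → ℝ) (g : ℂ → ℂ) (κ₁ a b : ℝ), 0 < κ₁ ∧ κ₁ ≤ 1 / 8 ∧ 0 < a ∧ 0 < b ∧
      (∀ z, 0 ≤ ρ z) ∧ (∀ z, ρ z ≤ 1) ∧ (∀ z w, |ρ z - ρ w| ≤ ‖z - w‖) ∧
      (∀ z ∈ closure G, ρ z ≤ ‖f z‖ ^ p ∧ ‖f z‖ ^ p ≤ 2 ^ p * (2 * L) * ρ z) ∧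
      DifferentiableOn ℂ g {z | infDist z (closure G) < κ₁ * ρ z ^ (4 * p)} ∧
      ∀ z, infDist z (closure G) < κ₁ * ρ z ^ (4 * p) →
        a * ρ z ≤ ‖g z‖ ^ p ∧ ‖g z‖ ^ p ≤ b * ρ z := by
  have hG' := hG
  obtain ⟨hb, ho, hconn, -⟩ := hG'
  have hne : G.Nonempty := hconn.nonempty
  have hclne : (closure G).Nonempty := hne.mono subset_closure
  have hcomp : IsCompact (closure G) := hb.isCompact_closure
  obtain ⟨τ, hτ, c, hc, t₀, ht₀, hball⟩ := exists_field hG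
  obtain ⟨R₀, hR₀⟩ := hcomp.isBounded.subset_closedBall 0
  have hR₀' : ∀ z ∈ closure G, ‖z‖ ≤ R₀ := fun z hz => by simpa using hR₀ hz
  have hR₀0 : 0 ≤ R₀ := by
    obtain ⟨z, hz⟩ := hclne
    exact (norm_nonneg _).trans (hR₀' z hz)
  set R : ℝ := R₀ + 1 with hR
  obtain ⟨T, hT, hT1, hT2, hT3⟩ := field_bounds hτ R
  have hclR : ∀ z ∈ closure G, ‖z‖ ≤ R := fun z hz => by linarith [hR₀' z hz]
  obtain ⟨ρ, hρ0, hρ1, hρL, hρf, hfρ⟩ := exists_rho_pow hb hne hfc hp hL1 hLb hLl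
  obtain ⟨t, c₁, hc₁, C₁, hC₁, ht⟩ := exists_reg hρ0 hρL R (by positivity) hρ1
  -- constants
  have hL0 : 0 < L := by linarith
  set η : ℝ := 1 / (8 * 2 ^ p) with hη
  have hη0 : 0 < η := by positivity
  set C₂ : ℝ := C₁ ^ p with hC₂
  have hC₂0 : 0 < C₂ := by positivity
  obtain ⟨κ, hκ, hκ1, hκ2⟩ : ∃ κ > 0, κ * C₂ ≤ t₀ ∧ κ * C₂ * T * L ≤ η := by
    refine ⟨min (t₀ / C₂) (η / (C₂ * T * L)), by positivity, ?_, ?_⟩
    · calc min (t₀ / C₂) (η / (C₂ * T * L)) * C₂ ≤ t₀ / C₂ * C₂ := by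
            gcongr; exact min_le_left _ _
        _ = t₀ := by field_simp
    · calc min (t₀ / C₂) (η / (C₂ * T * L)) * C₂ * T * L ≤ (η / (C₂ * T * L)) * C₂ * T * L := by
            gcongr; exact min_le_right _ _
        _ = η := by field_simp
  obtain ⟨κ₁, hκ₁, hκ₁1, hκ₁2, hκ₁3, hκ₁4⟩ : ∃ κ₁ > 0, κ₁ ≤ 1 / 8 ∧ κ₁ * L ≤ η ∧ κ₁ * T ≤ c / 4 ∧
      κ₁ ≤ c * κ * c₁ ^ p / 4 := by
    refine ⟨min (min (1 / 8) (η / L)) (min (c / (4 * T)) (c * κ * c₁ ^ p / 4)), by positivity,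
      (min_le_left _ _).trans (min_le_left _ _), ?_, ?_, (min_le_right _ _).trans (min_le_right _ _)⟩
    · calc min (min (1 / 8) (η / L)) (min (c / (4 * T)) (c * κ * c₁ ^ p / 4)) * L ≤ η / L * L := by
            gcongr; exact (min_le_left _ _).trans (min_le_right _ _)
        _ = η := by field_simp
    · calc min (min (1 / 8) (η / L)) (min (c / (4 * T)) (c * κ * c₁ ^ p / 4)) * T
          ≤ c / (4 * T) * T := by
            gcongr; exact (min_le_right _ _).trans (min_le_left _ _)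
        _ = c / 4 := by field_simp
  set Ω : Set ℂ := {z | infDist z (closure G) < κ₁ * ρ z ^ (4 * p)} with hΩdef
  have hρc : Continuous ρ := by
    have : LipschitzWith 1 ρ := LipschitzWith.of_dist_le_mul fun z w => by
      rw [Real.dist_eq, dist_eq_norm, NNReal.coe_one, one_mul]
      exact hρL z w
    exact this.continuous
  have hΩo : IsOpen Ω := isOpen_lt (continuous_infDist_pt _) (by fun_prop)
  let W : ℂ → ℂ := fun z => z + (κ * t z ^ p) • τ z
  let F : ℂ → ℂ := fun z => f (W z)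
  set K₂ : ℝ := 2 ^ p * (2 ^ p * (2 * L)) * 2 with hK₂
  have hK₂0 : 0 < K₂ := by positivity
  -- the basic estimates
  have key : ∀ z ∈ Ω, 0 < ρ z ∧ ‖z‖ ≤ R ∧ closedBall (W z) (c / 4 * (κ * t z ^ p)) ⊆ G ∧
      1 / (2 * 2 ^ p) * ρ z ≤ ‖F z‖ ^ p ∧ ‖F z‖ ^ p ≤ K₂ * ρ z := by
    intro z hz
    have hz' : infDist z (closure G) < κ₁ * ρ z ^ (4 * p) := hz
    have hρz : 0 < ρ z := by
      rcases (hρ0 z).eq_or_lt with h | h
      · rw [← h, zero_pow (by omega), mul_zero] at hz'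
        exact absurd hz' (not_lt.2 infDist_nonneg)
      · exact h
    obtain ⟨z₀, hz₀, hd0⟩ := hcomp.exists_infDist_eq_dist hclne z
    rw [hd0, dist_eq_norm] at hz'
    set d := ‖z - z₀‖ with hd
    have hd00 : 0 ≤ d := norm_nonneg _
    have p3 : ρ z ^ (4 * p) ≤ ρ z := by
      calc ρ z ^ (4 * p) ≤ ρ z ^ 1 := pow_le_pow_of_le_one hρz.le (hρ1 z) (by omega)
        _ = ρ z := pow_one _
    have p3' : ρ z ^ (2 * p) ≤ ρ z := by
      calc ρ z ^ (2 * p) ≤ ρ z ^ 1 := pow_le_pow_of_le_one hρz.le (hρ1 z) (by omega)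
        _ = ρ z := pow_one _
    have p4 : ρ z ^ (4 * p) ≤ 1 := p3.trans (hρ1 z)
    have p5 : 0 < ρ z ^ (4 * p) := by positivity
    have hzR : ‖z‖ ≤ R := by
      have : ‖z‖ ≤ ‖z - z₀‖ + ‖z₀‖ := by simpa using norm_add_le (z - z₀) z₀
      have h2 := hR₀' z₀ hz₀
      have h3 : κ₁ * ρ z ^ (4 * p) ≤ 1 := by nlinarith
      linarith
    obtain ⟨-, htl, htu, -⟩ := ht z hzR hρz
    have hts : 0 < t z := lt_of_lt_of_le (by positivity) htl
    set s := κ * t z ^ p with hs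
    have hs0 : 0 < s := by positivity
    have htpu : t z ^ p ≤ C₂ * ρ z := by
      calc t z ^ p ≤ (C₁ * ρ z ^ 2) ^ p := pow_le_pow_left₀ hts.le htu p
        _ = C₂ * ρ z ^ (2 * p) := by rw [mul_pow, ← pow_mul]
        _ ≤ C₂ * ρ z := by gcongr
    have htpl : c₁ ^ p * ρ z ^ (4 * p) ≤ t z ^ p := by
      calc c₁ ^ p * ρ z ^ (4 * p) = (c₁ * ρ z ^ 4) ^ p := by rw [mul_pow, ← pow_mul]
        _ ≤ t z ^ p := pow_le_pow_left₀ (by positivity) htl p
    have hsρ : s ≤ κ * C₂ * ρ z := by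
      rw [hs, mul_assoc]; gcongr
    have hst₀ : s ≤ t₀ := by
      refine hsρ.trans ?_
      have h2 : 0 < κ * C₂ := by positivity
      nlinarith [hρ1 z]
    have hτd : ‖τ z - τ z₀‖ ≤ T * d := hT3 z z₀ hzR (hclR z₀ hz₀)
    have hdκ : d ≤ κ₁ := by nlinarith
    have e2 : d < c / 4 * s := by
      refine hz'.trans_le ?_
      calc κ₁ * ρ z ^ (4 * p) ≤ c * κ * c₁ ^ p / 4 * ρ z ^ (4 * p) := by gcongr
        _ = c / 4 * (κ * (c₁ ^ p * ρ z ^ (4 * p))) := by ring
        _ ≤ c / 4 * (κ * t z ^ p) := by gcongr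
    have hcb : closedBall (W z) (c / 4 * s) ⊆ G := by
      intro v hv
      rw [mem_closedBall, dist_eq_norm] at hv
      apply hball z₀ hz₀ s hs0 hst₀
      rw [mem_ball, dist_eq_norm]
      have e1 : v - (z₀ + s * τ z₀) = (v - W z) + ((z - z₀) + s * (τ z - τ z₀)) := by
        simp only [W]
        rw [Complex.real_smul]
        ring
      rw [e1]
      refine (norm_add_le _ _).trans_lt ?_
      have e4 : ‖(z - z₀) + s * (τ z - τ z₀)‖ ≤ d + s * ‖τ z - τ z₀‖ := by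
        refine (norm_add_le _ _).trans (le_of_eq ?_)
        rw [norm_mul, Complex.norm_real, Real.norm_of_nonneg hs0.le]
      have e3 : s * ‖τ z - τ z₀‖ ≤ s * (c / 4) := by
        gcongr
        refine hτd.trans ?_
        have : T * d ≤ T * κ₁ := by gcongr
        linarith
      have e5 : 0 < c * s := by positivity
      linarith
    have hWmem : W z ∈ G := hcb (mem_closedBall_self (by positivity))
    have hWz₀ : ‖W z - z₀‖ ≤ d + s * T := by
      have e1 : W z - z₀ = (z - z₀) + s * τ z := by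
        simp only [W]
        rw [Complex.real_smul]
        ring
      rw [e1]
      refine (norm_add_le _ _).trans ?_
      rw [norm_mul, Complex.norm_real, Real.norm_of_nonneg hs0.le]
      have := hT1 z hzR
      gcongr
    set x := ‖F z - f z₀‖ with hx
    set y := ‖f z₀‖ with hy
    have hx0 : 0 ≤ x := norm_nonneg _
    have hy0 : 0 ≤ y := norm_nonneg _
    have hFf : x ^ p ≤ 2 * η * ρ z := by
      have e1 := hLl (W z) (subset_closure hWmem) z₀ hz₀
      refine e1.trans ?_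
      have e2 : L * ‖W z - z₀‖ ≤ L * (d + s * T) := by gcongr
      refine e2.trans ?_
      have e3 : L * d ≤ η * ρ z := by
        calc L * d ≤ L * (κ₁ * ρ z) := by
              gcongr
              refine hz'.le.trans ?_
              gcongr
          _ = (κ₁ * L) * ρ z := by ring
          _ ≤ η * ρ z := by gcongr
      have e4 : L * (s * T) ≤ η * ρ z := by
        calc L * (s * T) ≤ L * (κ * C₂ * ρ z * T) := by gcongr
          _ = (κ * C₂ * T * L) * ρ z := by ring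
          _ ≤ η * ρ z := by gcongr
      nlinarith
    have hdρ : d ≤ 1 / 8 * ρ z := by
      refine hz'.le.trans ?_
      have h1 : κ₁ * ρ z ^ (4 * p) ≤ 1 / 8 * ρ z := by gcongr
      exact h1
    have hρd := abs_le.1 (hρL z z₀)
    have hlow := hρf z₀ hz₀
    have hup := hfρ z₀ hz₀
    have hy78 : 7 / 8 * ρ z ≤ y ^ p := by linarith [hρd.2]
    have h2p : (0:ℝ) < 2 ^ p := by positivity
    have h2x : 2 * x ≤ y := by
      refine le_of_pow_le_pow_left₀ (n := p) (by omega) hy0 ?_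
      rw [mul_pow]
      calc 2 ^ p * x ^ p ≤ 2 ^ p * (2 * η * ρ z) := by gcongr
        _ = 1 / 4 * ρ z := by rw [hη]; field_simp; norm_num
        _ ≤ y ^ p := by linarith
    have n1 : y ≤ ‖F z‖ + x := by
      have := norm_sub_le (F z) (F z - f z₀)
      simpa using this
    have n2 : ‖F z‖ ≤ x + y := by
      simpa using norm_add_le (F z - f z₀) (f z₀)
    refine ⟨hρz, hzR, hcb, ?_, ?_⟩
    · have h5 : y / 2 ≤ ‖F z‖ := by linarith
      calc 1 / (2 * 2 ^ p) * ρ z = (1 / 2 * ρ z) / 2 ^ p := by field_simp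
        _ ≤ y ^ p / 2 ^ p := by gcongr; linarith
        _ = (y / 2) ^ p := by rw [div_pow]
        _ ≤ ‖F z‖ ^ p := pow_le_pow_left₀ (by positivity) h5 p
    · have h5 : ‖F z‖ ≤ 2 * y := by linarith
      calc ‖F z‖ ^ p ≤ (2 * y) ^ p := pow_le_pow_left₀ (norm_nonneg _) h5 p
        _ = 2 ^ p * y ^ p := by rw [mul_pow]
        _ ≤ 2 ^ p * (2 ^ p * (2 * L) * ρ z₀) := by gcongr
        _ ≤ 2 ^ p * (2 ^ p * (2 * L) * (2 * ρ z)) := by
            gcongr
            linarith [hρd.1]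
        _ = K₂ * ρ z := by rw [hK₂]; ring
  set Q : ℝ := κ * T * (p + 1) * C₁ with hQ
  have hQ0 : 0 < Q := by positivity
  have hWd : ∀ z ∈ Ω, ∃ B : ℂ →L[ℝ] ℂ, HasFDerivAt W (ContinuousLinearMap.id ℝ ℂ + B) z ∧
      ‖B‖ ≤ Q * t z ^ (p - 1) * ρ z := by
    intro z hz
    obtain ⟨hρz, hzR, -, -, -⟩ := key z hz
    obtain ⟨htd, htl, htu, htn⟩ := ht z hzR hρz
    have hts : 0 < t z := lt_of_lt_of_le (by positivity) htl
    have hτd : HasFDerivAt τ (fderiv ℝ τ z) z :=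
      (hτ.differentiable (by simp) z).hasFDerivAt
    have h0 : HasFDerivAt (fun z => t z ^ p) (((p : ℝ) * t z ^ (p - 1)) • fderiv ℝ t z) z :=
      (hasDerivAt_pow p (t z)).comp_hasFDerivAt z htd.hasFDerivAt
    have h1 : HasFDerivAt (fun z => κ * t z ^ p)
        (κ • (((p : ℝ) * t z ^ (p - 1)) • fderiv ℝ t z)) z := h0.const_mul κ
    have h2 := h1.smul hτd
    refine ⟨_, (hasFDerivAt_id z).add h2, ?_⟩
    refine (norm_add_le _ _).trans ?_
    rw [norm_smul, ContinuousLinearMap.norm_smulRight_apply, norm_smul, norm_smul,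
      Real.norm_of_nonneg (by positivity), Real.norm_of_nonneg hκ.le,
      Real.norm_of_nonneg (by positivity)]
    have p1 : ρ z ^ 2 ≤ ρ z := by nlinarith [hρ1 z]
    have hps : t z ^ p = t z ^ (p - 1) * t z := by
      rw [← pow_succ]; congr 1; omega
    have e1 : κ * t z ^ p * ‖fderiv ℝ τ z‖ ≤ κ * (t z ^ (p - 1) * (C₁ * ρ z)) * T := by
      rw [hps]
      gcongr
      · refine htu.trans ?_
        gcongr
      · exact hT2 z hzR
    have e2 : κ * (p * t z ^ (p - 1) * ‖fderiv ℝ t z‖) * ‖τ z‖ ≤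
        κ * (p * t z ^ (p - 1) * (C₁ * ρ z)) * T := by
      gcongr
      exact hT1 z hzR
    calc κ * t z ^ p * ‖fderiv ℝ τ z‖ + κ * (p * t z ^ (p - 1) * ‖fderiv ℝ t z‖) * ‖τ z‖
        ≤ κ * (t z ^ (p - 1) * (C₁ * ρ z)) * T + κ * (p * t z ^ (p - 1) * (C₁ * ρ z)) * T :=
          add_le_add e1 e2
      _ = Q * t z ^ (p - 1) * ρ z := by rw [hQ]; ring
  set A : ℝ := c / 4 * κ with hA
  have hA0 : 0 < A := by positivity
  set K₅ : ℝ := L * A / A ^ p * (2 * Q) ^ p * (2 * 2 ^ p) with hK₅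
  have hK₅0 : 0 < K₅ := by positivity
  set C : ℝ := max 1 K₅ with hC
  have hC1 : 1 ≤ C := le_max_left _ _
  have hFd : ∀ z ∈ Ω, ∃ L' : ℂ →L[ℝ] ℂ, HasFDerivAt F L' z ∧ ‖db L'‖ ≤ C * ‖F z‖ := by
    intro z hz
    obtain ⟨hρz, hzR, hWb, hFl, hFu⟩ := key z hz
    obtain ⟨B, hB, hBn⟩ := hWd z hz
    obtain ⟨htd, htl, htu, htn⟩ := ht z hzR hρz
    have hts : 0 < t z := lt_of_lt_of_le (by positivity) htl
    have hr0 : 0 < c / 4 * (κ * t z ^ p) := by positivity
    have hWG : W z ∈ G := hWb (mem_closedBall_self hr0.le)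
    have hfd' : HasDerivAt f (deriv f (W z)) (W z) :=
      ((hfd _ hWG).differentiableAt (ho.mem_nhds hWG)).hasDerivAt
    have h1 := (hfd'.hasFDerivAt.restrictScalars ℝ).comp z hB
    refine ⟨_, h1, ?_⟩
    have e1 : ∀ v : ℂ, (((ContinuousLinearMap.toSpanSingleton ℂ (deriv f (W z))).restrictScalars ℝ).comp
        (ContinuousLinearMap.id ℝ ℂ + B)) v = deriv f (W z) * (ContinuousLinearMap.id ℝ ℂ + B) v := by
      intro v
      simp only [ContinuousLinearMap.comp_apply, add_apply, ContinuousLinearMap.coe_restrictScalars',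
        ContinuousLinearMap.toSpanSingleton_apply, smul_eq_mul]
      ring
    have e2 : db (((ContinuousLinearMap.toSpanSingleton ℂ (deriv f (W z))).restrictScalars ℝ).comp
        (ContinuousLinearMap.id ℝ ℂ + B)) = deriv f (W z) * db B := by
      have : db (ContinuousLinearMap.id ℝ ℂ + B) = db B := by rw [db_add, db_id, zero_add]
      rw [← this]
      unfold db
      rw [e1, e1]
      ring
    rw [e2, norm_mul]
    set u := ‖deriv f (W z)‖ with hu
    have hu0 : 0 ≤ u := norm_nonneg _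
    have hcau : (u * (c / 4 * (κ * t z ^ p))) ^ p ≤ L * (c / 4 * (κ * t z ^ p)) :=
      deriv_holder (fun v hv => (hfd v hv).differentiableAt (ho.mem_nhds hv)) hp hL0.le
        (fun v hv w hw => hLl v (subset_closure hv) w (subset_closure hw)) hr0 hWb
    have htp0 : 0 < t z ^ p := by positivity
    have hcau2 : u ^ p * (t z ^ (p - 1)) ^ p ≤ L * A / A ^ p := by
      have e3 : (u * (c / 4 * (κ * t z ^ p))) ^ p =
          (u ^ p * (t z ^ (p - 1)) ^ p) * A ^ p * t z ^ p := by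
        have e4 : (t z ^ p) ^ p = (t z ^ (p - 1)) ^ p * t z ^ p := by
          rw [← mul_pow, ← pow_succ]; congr 2; omega
        rw [show u * (c / 4 * (κ * t z ^ p)) = u * A * t z ^ p by rw [hA]; ring, mul_pow, mul_pow, e4]
        ring
      have e5 : L * (c / 4 * (κ * t z ^ p)) = L * A * t z ^ p := by rw [hA]; ring
      rw [e3, e5] at hcau
      have e6 := le_of_mul_le_mul_right hcau htp0
      rw [le_div_iff₀ (by positivity)]
      exact e6
    have hβ : ‖db B‖ ≤ 2 * Q * t z ^ (p - 1) * ρ z := by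
      refine (norm_db_le B).trans ?_
      linarith
    have hfin : (u * ‖db B‖) ^ p ≤ (C * ‖F z‖) ^ p := by
      calc (u * ‖db B‖) ^ p ≤ (u * (2 * Q * t z ^ (p - 1) * ρ z)) ^ p := by gcongr
        _ = (u ^ p * (t z ^ (p - 1)) ^ p) * (2 * Q) ^ p * ρ z ^ p := by
            rw [mul_pow, mul_pow, mul_pow]; ring
        _ ≤ (L * A / A ^ p) * (2 * Q) ^ p * ρ z := by
            have : ρ z ^ p ≤ ρ z := by
              calc ρ z ^ p ≤ ρ z ^ 1 := pow_le_pow_of_le_one hρz.le (hρ1 z) hp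
                _ = ρ z := pow_one _
            gcongr
        _ = K₅ * (1 / (2 * 2 ^ p) * ρ z) := by rw [hK₅]; field_simp
        _ ≤ K₅ * ‖F z‖ ^ p := by gcongr
        _ ≤ C ^ p * ‖F z‖ ^ p := by
            have : K₅ ≤ C ^ p := (le_max_right _ _).trans (le_self_pow₀ hC1 (by omega))
            gcongr
        _ = (C * ‖F z‖) ^ p := by rw [mul_pow]
    exact le_of_pow_le_pow_left₀ (by omega) (by positivity) hfin
  have hΩb : Bornology.IsBounded Ω := by
    refine (isBounded_closedBall (x := (0:ℂ)) (r := R)).subset ?_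
    intro z hz
    simpa using (key z hz).2.1
  have hF1 : ∀ z ∈ Ω, DifferentiableAt ℝ F z := by
    intro z hz
    obtain ⟨L', hL', -⟩ := hFd z hz
    exact hL'.differentiableAt
  have hF2 : ∀ z ∈ Ω, F z ≠ 0 := by
    intro z hz h0
    obtain ⟨hρz, hzR, hWG, hFl, hFu⟩ := key z hz
    rw [h0, norm_zero, zero_pow (by omega)] at hFl
    have : 0 < 1 / (2 * 2 ^ p) * ρ z := by positivity
    linarith
  have hF3 : ∀ z ∈ Ω, ‖db (fderiv ℝ F z)‖ ≤ C * ‖F z‖ := by
    intro z hz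
    obtain ⟨L', hL', hn⟩ := hFd z hz
    rw [hL'.fderiv]
    exact hn
  obtain ⟨v, ⟨V, hV⟩, hv⟩ := dbar_correction hΩo hΩb hF1 hF2 (by positivity) hF3
  refine ⟨ρ, fun z => F z * exp (-v z), κ₁, Real.exp (-V) ^ p * (1 / (2 * 2 ^ p)),
    Real.exp V ^ p * K₂, hκ₁, hκ₁1, by positivity, by positivity, hρ0, hρ1, hρL,
    fun z hz => ⟨hρf z hz, hfρ z hz⟩, hv, ?_⟩
  · intro z hz
    obtain ⟨hρz, hzR, hWG, hFl, hFu⟩ := key z hz
    have h1 : ‖exp (-v z)‖ ≤ Real.exp V := by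
      rw [Complex.norm_exp]
      apply Real.exp_le_exp.2
      have := abs_re_le_norm (-v z)
      rw [norm_neg] at this
      exact (le_abs_self _).trans (this.trans (hV z))
    have h2 : Real.exp (-V) ≤ ‖exp (-v z)‖ := by
      rw [Complex.norm_exp]
      apply Real.exp_le_exp.2
      have := abs_re_le_norm (-v z)
      rw [norm_neg] at this
      have h3 := this.trans (hV z)
      linarith [(abs_le.1 h3).1]
    simp only [norm_mul, mul_pow]
    constructor
    · calc Real.exp (-V) ^ p * (1 / (2 * 2 ^ p)) * ρ z =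
            (1 / (2 * 2 ^ p) * ρ z) * Real.exp (-V) ^ p := by ring
        _ ≤ ‖F z‖ ^ p * ‖exp (-v z)‖ ^ p := by gcongr
    · calc ‖F z‖ ^ p * ‖exp (-v z)‖ ^ p ≤ (K₂ * ρ z) * Real.exp V ^ p := by gcongr
        _ = Real.exp V ^ p * K₂ * ρ z := by ring

end

end Pool.Agent.H89.ZS
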