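import Pool.Agent.H89.ZS.Sm

open Metric Set Filter Topology Complex
open scoped NNReal ContDiff

namespace Pool.Agent.H89.ZS

open MP8a09

noncomputable section

/-- The Hölder class of order `α`: `f` is analytic in `G`, Hölder continuous of order `α` on `G`, and
on `clos G` the letter `f` denotes the continuous extension. -/
def HolderClass (G : Set ℂ) (α : ℝ) (f : ℂ → ℂ) : Prop :=
  DifferentiableOn ℂ f G ∧ (∃ L : ℝ, ∀ z ∈ G, ∀ w ∈ G, ‖f z - f w‖ ≤ L * ‖z - w‖ ^ α) ∧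
    ContinuousOn f (closure G)

/-- passage from `G` to its closure -/
lemma pow_closure {G : Set ℂ} {f : ℂ → ℂ} (hc : ContinuousOn f (closure G)) {p : ℕ} {C : ℝ}
    (h : ∀ z ∈ G, ∀ w ∈ G, ‖f z - f w‖ ^ p ≤ C * ‖z - w‖) :
    ∀ z ∈ closure G, ∀ w ∈ closure G, ‖f z - f w‖ ^ p ≤ C * ‖z - w‖ := by
  intro z hz w hw
  have hmem : (z, w) ∈ closure (G ×ˢ G) := by
    rw [closure_prod_eq]; exact ⟨hz, hw⟩
  have hne : (𝓝[G ×ˢ G] (z, w)).NeBot := mem_closure_iff_nhdsWithin_neBot.1 hmem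
  have hfst : Tendsto (fun p : ℂ × ℂ => f p.1) (𝓝[G ×ˢ G] (z, w)) (𝓝 (f z)) := by
    have h1 : Tendsto (fun p : ℂ × ℂ => p.1) (𝓝[G ×ˢ G] (z, w)) (𝓝[closure G] z) := by
      refine tendsto_nhdsWithin_iff.2 ⟨(continuous_fst.tendsto _).mono_left nhdsWithin_le_nhds, ?_⟩
      filter_upwards [self_mem_nhdsWithin] with p hp
      exact subset_closure hp.1
    exact (hc z hz).tendsto.comp h1
  have hsnd : Tendsto (fun p : ℂ × ℂ => f p.2) (𝓝[G ×ˢ G] (z, w)) (𝓝 (f w)) := by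
    have h1 : Tendsto (fun p : ℂ × ℂ => p.2) (𝓝[G ×ˢ G] (z, w)) (𝓝[closure G] w) := by
      refine tendsto_nhdsWithin_iff.2 ⟨(continuous_snd.tendsto _).mono_left nhdsWithin_le_nhds, ?_⟩
      filter_upwards [self_mem_nhdsWithin] with p hp
      exact subset_closure hp.2
    exact (hc w hw).tendsto.comp h1
  have hdiff : Tendsto (fun p : ℂ × ℂ => ‖p.1 - p.2‖) (𝓝[G ×ˢ G] (z, w)) (𝓝 ‖z - w‖) := by
    have h1 : Continuous (fun p : ℂ × ℂ => ‖p.1 - p.2‖) := by fun_prop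
    exact (h1.tendsto (z, w)).mono_left nhdsWithin_le_nhds
  refine le_of_tendsto_of_tendsto ((hfst.sub hsnd).norm.pow p) (hdiff.const_mul C) ?_
  filter_upwards [self_mem_nhdsWithin] with q hq
  exact h q.1 hq.1 q.2 hq.2

lemma pow_of_holder {G : Set ℂ} (hb : Bornology.IsBounded G) {f : ℂ → ℂ} {α : ℝ}
    (hf : HolderClass G α f) {p : ℕ} (hp : 1 ≤ α * p) :
    ∃ L : ℝ, 1 ≤ L ∧ (∀ z ∈ closure G, ‖f z‖ ^ p ≤ L) ∧
      ∀ z ∈ closure G, ∀ w ∈ closure G, ‖f z - f w‖ ^ p ≤ L * ‖z - w‖ := by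
  obtain ⟨-, ⟨L, hL⟩, hc⟩ := hf
  obtain ⟨B, hB⟩ := hb.isCompact_closure.exists_bound_of_continuousOn hc
  obtain ⟨R, hR⟩ := hb.subset_closedBall 0
  have hp1 : 1 ≤ p := by
    rcases Nat.eq_zero_or_pos p with h | h
    · subst h; norm_num at hp
    · exact h
  set D : ℝ := 2 * |R| + 1 with hD
  have hD0 : 0 < D := by positivity
  set C : ℝ := |L| ^ p * D ^ (α * p - 1) with hC
  have hC0 : 0 ≤ C := by positivity
  have h1 : ∀ z ∈ G, ∀ w ∈ G, ‖f z - f w‖ ^ p ≤ C * ‖z - w‖ := by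
    intro z hz w hw
    have hzw : ‖z - w‖ ≤ D := by
      have e1 : ‖z‖ ≤ R := by simpa using hR hz
      have e2 : ‖w‖ ≤ R := by simpa using hR hw
      have e3 := norm_sub_le z w
      have e4 := le_abs_self R
      linarith
    rcases eq_or_ne z w with rfl | hne
    · simp [show p ≠ 0 by omega]
    have hpos : 0 < ‖z - w‖ := norm_pos_iff.2 (sub_ne_zero.2 hne)
    have e5 : ‖f z - f w‖ ≤ |L| * ‖z - w‖ ^ α := by
      refine (hL z hz w hw).trans ?_
      gcongr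
      exact le_abs_self L
    calc ‖f z - f w‖ ^ p ≤ (|L| * ‖z - w‖ ^ α) ^ p := pow_le_pow_left₀ (norm_nonneg _) e5 p
      _ = |L| ^ p * (‖z - w‖ ^ (α * p - 1) * ‖z - w‖) := by
          rw [mul_pow]
          congr 1
          rw [← Real.rpow_natCast (‖z - w‖ ^ α) p, ← Real.rpow_mul hpos.le]
          rw [show α * (p : ℝ) = (α * p - 1) + 1 by ring, Real.rpow_add hpos, Real.rpow_one]
          congr 2
          ring
      _ ≤ |L| ^ p * (D ^ (α * p - 1) * ‖z - w‖) := by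
          have : ‖z - w‖ ^ (α * p - 1) ≤ D ^ (α * p - 1) :=
            Real.rpow_le_rpow hpos.le hzw (by linarith)
          gcongr
      _ = C * ‖z - w‖ := by rw [hC]; ring
  have h2 := pow_closure hc h1
  refine ⟨max 1 (max (|B| ^ p) C), le_max_left _ _, fun z hz => ?_, fun z hz w hw => ?_⟩
  · refine (pow_le_pow_left₀ (norm_nonneg _) ((hB z hz).trans (le_abs_self B)) p).trans ?_
    exact (le_max_left _ _).trans (le_max_right _ _)
  · refine (h2 z hz w hw).trans ?_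
    gcongr
    exact (le_max_right _ _).trans (le_max_right _ _)

/-- **Comparison with smooth functions.** -/
theorem comparable {G : Set ℂ} (hG : IsLipschitzDomain G) {f : ℂ → ℂ} {α : ℝ}
    (hf : HolderClass G α f) (k : ℕ) {p : ℕ} (hp : 1 ≤ α * p) {M : ℕ}
    (hM : p * (4 * p * k + 2) ≤ M) :
    ∃ f₁ : ℂ → ℂ, SmoothClass G k f₁ ∧
      (∃ O : Set ℂ, IsOpen O ∧ G ⊆ O ∧ (∀ z ∈ closure G, f z ≠ 0 → z ∈ O) ∧
        DifferentiableOn ℂ f₁ O) ∧
      ∃ a b : ℝ, 0 < a ∧ 0 < b ∧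
        ∀ z ∈ closure G, a * ‖f z‖ ^ M ≤ ‖f₁ z‖ ∧ ‖f₁ z‖ ≤ b * ‖f z‖ ^ M := by
  obtain ⟨L, hL1, hLb, hLl⟩ := pow_of_holder hG.1 hf hp
  have hp1 : 1 ≤ p := by
    rcases Nat.eq_zero_or_pos p with h | h
    · subst h; norm_num at hp
    · exact h
  have hM1 : 1 ≤ M := by
    have : 1 ≤ p * (4 * p * k + 2) := Nat.mul_pos hp1 (by omega)
    omega
  obtain ⟨ρ, g, κ₁, a, b, hκ₁, hκ₁1, ha, hb, hρ0, hρ1, hρL, hρf, hgd, hgb⟩ :=
    exists_g_pow hG hp1 hf.1 hf.2.2 hL1 hLb hLl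
  set N : ℕ := 4 * p * k + 2 with hN
  have hg1 : ∀ z, infDist z (closure G) < κ₁ * ρ z ^ (4 * p) → ‖g z‖ ≤ 1 + b := by
    intro z hz
    refine le_of_pow_le_pow_left₀ (n := p) (by omega) (by positivity) ?_
    calc ‖g z‖ ^ p ≤ b * ρ z := (hgb z hz).2
      _ ≤ b * 1 := by gcongr; exact hρ1 z
      _ ≤ (1 + b) ^ p := by
          have : (1 + b) ≤ (1 + b) ^ p := le_self_pow₀ (by linarith) (by omega)
          linarith
  have hgM : ∀ z, infDist z (closure G) < κ₁ * ρ z ^ (4 * p) →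
      ‖g z ^ M‖ ≤ (b ^ N * (1 + b) ^ (M - p * N)) * ρ z ^ (4 * p * k + 2) := by
    intro z hz
    rw [norm_pow]
    calc ‖g z‖ ^ M = (‖g z‖ ^ p) ^ N * ‖g z‖ ^ (M - p * N) := by
          rw [← pow_mul, ← pow_add]
          congr 1
          omega
      _ ≤ (b * ρ z) ^ N * (1 + b) ^ (M - p * N) := by
          have h0 : 0 ≤ (b * ρ z) ^ N := by
            have := hρ0 z
            positivity
          exact mul_le_mul (pow_le_pow_left₀ (by positivity) (hgb z hz).2 N)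
            (pow_le_pow_left₀ (norm_nonneg _) (hg1 z hz) _) (by positivity) h0
      _ = (b ^ N * (1 + b) ^ (M - p * N)) * ρ z ^ (4 * p * k + 2) := by
          rw [mul_pow]; ring
  obtain ⟨f₁, hf₁, hf₁0, hf₁g, O, hO, hGO, hOc, hfO⟩ := smooth_of_g hG.1 hG.2.1 (m := 4 * p) (by omega) (ρ := ρ)
    (g := fun z => g z ^ M) (b := b ^ N * (1 + b) ^ (M - p * N)) hκ₁ hκ₁1 (by positivity)
    hρ0 hρ1 hρL k (hgd.pow M) hgM
  set K : ℝ := 2 ^ p * (2 * L) with hK
  have hK0 : 0 < K := by positivity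
  refine ⟨f₁, hf₁, ⟨O, hO, hGO, fun z hz hfz => hOc z hz ?_, hfO⟩, (1 / (1 + K / a)) ^ M,
    (1 + b) ^ M, by positivity, by positivity, fun z hz => ?_⟩
  · rcases (hρ0 z).eq_or_lt with h | h
    · exfalso
      have h2 := (hρf z hz).2
      rw [← h, mul_zero] at h2
      have h3 : ‖f z‖ = 0 := pow_eq_zero_iff (by omega) |>.1 (le_antisymm h2 (by positivity))
      exact hfz (norm_eq_zero.1 h3)
    · exact h
  obtain ⟨hfl, hfu⟩ := hρf z hz
  rcases (hρ0 z).eq_or_lt with h | h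
  · have hfz : ‖f z‖ = 0 := by
      rw [← h, mul_zero] at hfu
      exact pow_eq_zero_iff (by omega) |>.1 (le_antisymm hfu (by positivity))
    rw [hf₁0 z h.symm, hfz, norm_zero, zero_pow (by omega)]
    simp
  · have hzΩ : infDist z (closure G) < κ₁ * ρ z ^ (4 * p) := by
      rw [infDist_zero_of_mem hz]
      positivity
    obtain ⟨hgl, hgu⟩ := hgb z hzΩ
    rw [hf₁g z hz h, norm_pow]
    have e1 : ‖g z‖ ≤ (1 + b) * ‖f z‖ := by
      refine le_of_pow_le_pow_left₀ (n := p) (by omega) (by positivity) ?_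
      calc ‖g z‖ ^ p ≤ b * ρ z := hgu
        _ ≤ b * ‖f z‖ ^ p := by gcongr
        _ ≤ (1 + b) ^ p * ‖f z‖ ^ p := by
            have : (1 + b) ≤ (1 + b) ^ p := le_self_pow₀ (by linarith) (by omega)
            gcongr
            linarith
        _ = ((1 + b) * ‖f z‖) ^ p := by rw [mul_pow]
    have e2 : ‖f z‖ ≤ (1 + K / a) * ‖g z‖ := by
      refine le_of_pow_le_pow_left₀ (n := p) (by omega) (by positivity) ?_
      have hKa : 0 < K / a := by positivity
      calc ‖f z‖ ^ p ≤ K * ρ z := hfu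
        _ = K / a * (a * ρ z) := by field_simp
        _ ≤ K / a * ‖g z‖ ^ p := by gcongr
        _ ≤ (1 + K / a) ^ p * ‖g z‖ ^ p := by
            have : (1 + K / a) ≤ (1 + K / a) ^ p := le_self_pow₀ (by linarith) (by omega)
            gcongr
            linarith
        _ = ((1 + K / a) * ‖g z‖) ^ p := by rw [mul_pow]
    constructor
    · rw [← mul_pow]
      refine pow_le_pow_left₀ (by positivity) ?_ M
      rw [one_div, inv_mul_le_iff₀ (by positivity)]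
      exact e2
    · rw [← mul_pow]
      exact pow_le_pow_left₀ (norm_nonneg _) e1 M

/-- functions of class `C^γ`, `γ ≥ 1`, are Hölder continuous of every order `α ≤ 1` -/
theorem holder_of_smooth {G : Set ℂ} (hG : IsLipschitzDomain G) {f : ℂ → ℂ} {γ : ℕ} (hγ : 1 ≤ γ)
    (hf : SmoothClass G γ f) {α : ℝ} (hα1 : α ≤ 1) : HolderClass G α f := by
  have hG' := hG
  obtain ⟨hb, ho, hconn, -⟩ := hG'
  obtain ⟨hfd, hfu, hfc⟩ := hf
  have hcomp : IsCompact (closure G) := hb.isCompact_closure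
  obtain ⟨τ, hτ, c, hc, t₀, ht₀, hball⟩ := exists_field hG
  obtain ⟨R₀, hR₀⟩ := hcomp.isBounded.subset_closedBall 0
  have hclR : ∀ z ∈ closure G, ‖z‖ ≤ R₀ := fun z hz => by simpa using hR₀ hz
  obtain ⟨T, hT, hT1, hT2, hT3⟩ := field_bounds hτ R₀
  obtain ⟨δ, hδ, A, hA, hlip⟩ := local_lip hc ht₀ hT hball
    (fun z hz => hT1 z (hclR z (subset_closure hz)))
    (fun z hz w hw => hT3 z w (hclR z (subset_closure hz)) (hclR w (subset_closure hw)))
  obtain ⟨M, hM0, hM⟩ := deriv_bounded ho hb hδ hlip hA hfd hγ hfu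
  obtain ⟨L, hL1, hLb, hLl⟩ := lip_closure hb hfc hδ
    (hlip f M hM0 (fun z hz => (hfd z hz).differentiableAt (ho.mem_nhds hz)) hM)
  set D : ℝ := 2 * |R₀| + 1 with hD
  refine ⟨hfd, ⟨L * D ^ (1 - α), fun z hz w hw => ?_⟩, hfc⟩
  rcases eq_or_ne z w with rfl | hne
  · simp only [sub_self, norm_zero]
    positivity
  have hpos : 0 < ‖z - w‖ := norm_pos_iff.2 (sub_ne_zero.2 hne)
  have hzw : ‖z - w‖ ≤ D := by
    have e1 := hclR z (subset_closure hz)
    have e2 := hclR w (subset_closure hw)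
    have e3 := norm_sub_le z w
    have e4 := le_abs_self R₀
    linarith
  calc ‖f z - f w‖ ≤ L * ‖z - w‖ := hLl z (subset_closure hz) w (subset_closure hw)
    _ = L * (‖z - w‖ ^ (1 - α) * ‖z - w‖ ^ α) := by
        rw [← Real.rpow_add hpos]
        simp
    _ ≤ L * (D ^ (1 - α) * ‖z - w‖ ^ α) := by
        have : ‖z - w‖ ^ (1 - α) ≤ D ^ (1 - α) := Real.rpow_le_rpow hpos.le hzw (by linarith)
        gcongr
    _ = L * D ^ (1 - α) * ‖z - w‖ ^ α := by ring

/-- the zeros of a function of positive Hölder order are the zeros of a smooth function -/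
theorem same_zeros {G : Set ℂ} (hG : IsLipschitzDomain G) {f : ℂ → ℂ} {α : ℝ} (hα : 0 < α)
    (hf : HolderClass G α f) (k : ℕ) :
    ∃ f₁ : ℂ → ℂ, SmoothClass G k f₁ ∧ ∀ z ∈ closure G, (f₁ z = 0 ↔ f z = 0) := by
  obtain ⟨p, hp⟩ := exists_nat_ge (1 / α)
  have hp' : 1 ≤ α * p := by
    rw [div_le_iff₀ hα] at hp
    linarith
  have hp1 : 1 ≤ p := by
    rcases Nat.eq_zero_or_pos p with h | h
    · subst h; norm_num at hp'
    · exact h
  obtain ⟨f₁, hf₁, -, a, b, ha, hb, hab⟩ := comparable hG hf k hp' le_rfl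
  have hM : p * (4 * p * k + 2) ≠ 0 := by positivity
  refine ⟨f₁, hf₁, fun z hz => ?_⟩
  obtain ⟨h1, h2⟩ := hab z hz
  constructor
  · intro h
    rw [h, norm_zero] at h1
    by_contra hne
    have : 0 < a * ‖f z‖ ^ (p * (4 * p * k + 2)) := by
      have := norm_pos_iff.2 hne
      positivity
    linarith
  · intro h
    rw [h, norm_zero, zero_pow hM, mul_zero] at h2
    exact norm_le_zero_iff.1 h2

end

end Pool.Agent.H89.ZS
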