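import Pool.Graph.R_seed8.Helper897.ZS.Constr

open Metric Set Filter Topology Complex
open scoped NNReal ContDiff

namespace Pool.Agent.H89.ZS

open MP8a09

noncomputable section

lemma add_pow_le' {a b : ℝ} (ha : 0 ≤ a) (hb : 0 ≤ b) (p : ℕ) :
    (a + b) ^ p ≤ 2 ^ p * (a ^ p + b ^ p) := by
  rcases le_total a b with h | h
  · calc (a + b) ^ p ≤ (2 * b) ^ p := pow_le_pow_left₀ (by positivity) (by linarith) p
      _ = 2 ^ p * b ^ p := by rw [mul_pow]
      _ ≤ 2 ^ p * (a ^ p + b ^ p) := by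
        have : 0 ≤ a ^ p := by positivity
        gcongr
        linarith
  · calc (a + b) ^ p ≤ (2 * a) ^ p := pow_le_pow_left₀ (by positivity) (by linarith) p
      _ = 2 ^ p * a ^ p := by rw [mul_pow]
      _ ≤ 2 ^ p * (a ^ p + b ^ p) := by
        have : 0 ≤ b ^ p := by positivity
        gcongr
        linarith

/-- a Lipschitz function comparable with `|f|^p`, for `f` Hölder continuous of order `1/p` -/
lemma exists_rho_pow {G : Set ℂ} (hb : Bornology.IsBounded G) (hne : G.Nonempty) {f : ℂ → ℂ}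
    (hc : ContinuousOn f (closure G)) {p : ℕ} (hp : 1 ≤ p) {L : ℝ} (hL1 : 1 ≤ L)
    (hLb : ∀ z ∈ closure G, ‖f z‖ ^ p ≤ L)
    (hLl : ∀ z ∈ closure G, ∀ w ∈ closure G, ‖f z - f w‖ ^ p ≤ L * ‖z - w‖) :
    ∃ ρ : ℂ → ℝ, (∀ z, 0 ≤ ρ z) ∧ (∀ z, ρ z ≤ 1) ∧ (∀ z w, |ρ z - ρ w| ≤ ‖z - w‖) ∧
      (∀ z ∈ closure G, ρ z ≤ ‖f z‖ ^ p) ∧
      (∀ z ∈ closure G, ‖f z‖ ^ p ≤ 2 ^ p * (2 * L) * ρ z) := by
  set Γ : Set (ℂ × ℝ) := (fun w => (w, ‖f w‖ ^ p)) '' closure G with hΓ
  have hΓc : IsCompact Γ := hb.isCompact_closure.image_of_continuousOn (by fun_prop)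
  have hΓne : Γ.Nonempty := (hne.mono subset_closure).image _
  refine ⟨fun z => min 1 (infDist (z, (0:ℝ)) Γ), fun z => le_min zero_le_one infDist_nonneg,
    fun z => min_le_left _ _, fun z w => ?_, fun z hz => ?_, fun z hz => ?_⟩
  · refine (abs_min_sub_min_le_max _ _ _ _).trans ?_
    rw [sub_self, abs_zero]
    refine max_le (norm_nonneg _) ?_
    have hd : dist (z, (0:ℝ)) (w, (0:ℝ)) = ‖z - w‖ := by
      rw [Prod.dist_eq, dist_self, dist_eq_norm, max_eq_left (norm_nonneg _)]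
    rw [abs_sub_le_iff]
    constructor
    · have := infDist_le_infDist_add_dist (s := Γ) (x := (z, (0:ℝ))) (y := (w, (0:ℝ)))
      rw [hd] at this
      linarith
    · have := infDist_le_infDist_add_dist (s := Γ) (x := (w, (0:ℝ))) (y := (z, (0:ℝ)))
      rw [dist_comm, hd] at this
      linarith
  · refine (min_le_right _ _).trans ?_
    refine (infDist_le_dist_of_mem (mem_image_of_mem _ hz)).trans (le_of_eq ?_)
    rw [Prod.dist_eq]
    simp only [dist_self, dist_zero_left, norm_pow, norm_norm]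
    exact max_eq_right (by positivity)
  · have h2p : (1:ℝ) ≤ 2 ^ p := one_le_pow₀ (by norm_num)
    rcases min_cases (1:ℝ) (infDist (z, (0:ℝ)) Γ) with ⟨h1, _⟩ | ⟨h1, _⟩
    · simp only [h1]
      nlinarith [hLb z hz]
    · simp only [h1]
      obtain ⟨_, ⟨w, hw, rfl⟩, hwd⟩ := hΓc.exists_infDist_eq_dist hΓne (z, (0:ℝ))
      rw [hwd, Prod.dist_eq]
      simp only
      have e1 : ‖z - w‖ ≤ max (dist z w) (dist 0 (‖f w‖ ^ p)) := by
        rw [← dist_eq_norm]; exact le_max_left _ _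
      have e2 : ‖f w‖ ^ p ≤ max (dist z w) (dist 0 (‖f w‖ ^ p)) := by
        refine le_trans (le_of_eq ?_) (le_max_right _ _)
        rw [dist_zero_left, norm_pow, norm_norm]
      set D := max (dist z w) (dist 0 (‖f w‖ ^ p)) with hD
      have e3 := hLl z hz w hw
      have e4 : ‖f z‖ ≤ ‖f z - f w‖ + ‖f w‖ := by
        simpa using norm_add_le (f z - f w) (f w)
      have e5 : 0 ≤ D := (norm_nonneg _).trans e1
      calc ‖f z‖ ^ p ≤ (‖f z - f w‖ + ‖f w‖) ^ p := pow_le_pow_left₀ (norm_nonneg _) e4 p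
        _ ≤ 2 ^ p * (‖f z - f w‖ ^ p + ‖f w‖ ^ p) :=
            add_pow_le' (norm_nonneg _) (norm_nonneg _) p
        _ ≤ 2 ^ p * (L * D + L * D) := by
            have a1 : ‖f z - f w‖ ^ p ≤ L * D := e3.trans (by gcongr)
            have a2 : ‖f w‖ ^ p ≤ L * D := by nlinarith
            gcongr
        _ = 2 ^ p * (2 * L) * D := by ring

end

end Pool.Agent.H89.ZS
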